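import Pool.Agent.Helper68.LM2.Geo
import Pool.Agent.Helper60.LM.M_DOM

/-!
# Project LM2, module LOC: local domination at curved and flat points
-/

set_option autoImplicit false

open MeasureTheory Set Filter Topology
open scoped ENNReal RealInnerProductSpace

namespace Pool.Agent.Helper39.LM2

open Pool.Agent.Helper68.LM2 Pool.Agent.Helper68.LM
open Pool.Agent.Helper61.Lacunary (ConditionG LpBounded)

/-- one side of a flat point -/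
theorem side_LOC (hSIDM : StSIDM) (hMBA : StMBA) (hTAU : StTAU) (hCAPT : StCAPT)
    {Ω : Set Pl} {p : ℝ} (h1 : IsOpen Ω) (h2 : Convex ℝ Ω) (h3 : Bornology.IsBounded Ω)
    (h4 : Ω.Nonempty) (hp : 1 < p) (hG : ConditionG Ω p) {P u v : Pl} {c : ℝ} {φ : ℝ → ℝ}
    (hS : Side P u v c φ) (hP : P ∈ frontier Ω) (hc : curve P u v φ '' Ioo 0 c ⊆ frontier Ω) :
    ∃ ν : Measure Pl, MB p ν ∧ ∀ B : Set Pl, MeasurableSet B →
      (μH[1] : Measure Pl) (curve P u v φ '' Ioo 0 c ∩ B) ≤ ν B := by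
  obtain ⟨m₀, τ, hL⟩ := hTAU.1 P u v c φ hS
  have hsum := hCAPT Ω P u v c p φ m₀ τ h1 h2 h3 h4 (by linarith) hG hS hP hc hL
  have hMB1 := hSIDM p P u v c φ m₀ τ hp hS hL hsum
  have hτ0 : 0 < τ 0 := hL.1.2.1 0
  have hτc : τ 0 < c := hL.2.1
  obtain ⟨hu, hv, huv, hc0, hc1, hφ0, hφc, hφd, hφt, hφb, hφm⟩ := hS
  have hτm : τ 0 ∈ Ioo 0 c := ⟨hτ0, hτc⟩
  have arc1 : IsArc 0 (τ 0) 0 (curve P u v φ) := by
    refine ⟨hτ0, P, u, v, φ, hu, hv, huv, fun t => rfl, ?_, ?_, ?_⟩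
    · exact hφc.mono (Icc_subset_Icc le_rfl hτc.le)
    · exact hφd.mono (Ioo_subset_Ioo le_rfl hτc.le)
    · intro t ht
      have h5 := hφb t ⟨ht.1, ht.2.trans hτc⟩
      exact ⟨h5.1, h5.2.le⟩
  have hκ : 0 < deriv (deriv φ) (τ 0) := (hφb _ hτm).2
  have arc2 : IsArc (τ 0) c (deriv (deriv φ) (τ 0)) (curve P u v φ) := by
    refine ⟨hτc, P, u, v, φ, hu, hv, huv, fun t => rfl, ?_, ?_, ?_⟩
    · exact hφc.mono (Icc_subset_Icc hτ0.le le_rfl)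
    · exact hφd.mono (Ioo_subset_Ioo hτ0.le le_rfl)
    · intro t ht
      have ht' : t ∈ Ioo 0 c := ⟨hτ0.trans ht.1, ht.2⟩
      exact ⟨(hφb t ht').1, hφm hτm ht' ht.1.le⟩
  obtain ⟨mb1, mb2, mb3, mb4⟩ := hMBA p hp
  have hMB2 := mb1 _ _ _ _ arc2 hκ
  refine ⟨(2 : ℝ≥0∞) • arcMeasure 0 (τ 0) (curve P u v φ) +
    (2 : ℝ≥0∞) • arcMeasure (τ 0) c (curve P u v φ), mb2 _ _ (mb3 _ hMB1) (mb3 _ hMB2), ?_⟩
  intro B hB
  have d1 := Helper60.LM.hDOM _ _ _ _ arc1 B hB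
  have d2 := Helper60.LM.hDOM _ _ _ _ arc2 B hB
  have hsub : curve P u v φ '' Ioo 0 c ∩ B ⊆
      (curve P u v φ '' Icc 0 (τ 0) ∩ B) ∪ (curve P u v φ '' Icc (τ 0) c ∩ B) := by
    rintro x ⟨⟨t, ht, rfl⟩, hx⟩
    by_cases h : t ≤ τ 0
    · exact Or.inl ⟨⟨t, ⟨ht.1.le, h⟩, rfl⟩, hx⟩
    · push Not at h
      exact Or.inr ⟨⟨t, ⟨h.le, ht.2.le⟩, rfl⟩, hx⟩
  calc (μH[1] : Measure Pl) (curve P u v φ '' Ioo 0 c ∩ B)
      ≤ (μH[1] : Measure Pl) ((curve P u v φ '' Icc 0 (τ 0) ∩ B) ∪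
          (curve P u v φ '' Icc (τ 0) c ∩ B)) := measure_mono hsub
    _ ≤ (μH[1] : Measure Pl) (curve P u v φ '' Icc 0 (τ 0) ∩ B) +
          (μH[1] : Measure Pl) (curve P u v φ '' Icc (τ 0) c ∩ B) := measure_union_le _ _
    _ ≤ 2 * arcMeasure 0 (τ 0) (curve P u v φ) B + 2 * arcMeasure (τ 0) c (curve P u v φ) B :=
        add_le_add d1 d2
    _ = ((2 : ℝ≥0∞) • arcMeasure 0 (τ 0) (curve P u v φ) +
          (2 : ℝ≥0∞) • arcMeasure (τ 0) c (curve P u v φ)) B := by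
        rw [Measure.add_apply, Measure.smul_apply, Measure.smul_apply, smul_eq_mul, smul_eq_mul]

theorem hLOC (hSIDM : StSIDM) (hMBA : StMBA) (hTAU : StTAU) (hCAPT : StCAPT) : StLOC := by
  intro Ω p h1 h2 h3 h0 hp hG y hy hcf
  rcases hcf with hcur | hflat
  · obtain ⟨U, hU, G, a, b, κ, harc, hκ, hsub⟩ := hcur
    obtain ⟨mb1, mb2, mb3, mb4⟩ := hMBA p hp
    refine ⟨U, hU, (2 : ℝ≥0∞) • arcMeasure a b G, mb3 _ (mb1 _ _ _ _ harc hκ), ?_⟩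
    intro B hB
    calc (μH[1] : Measure Pl) (frontier Ω ∩ U ∩ B)
        ≤ (μH[1] : Measure Pl) (G '' Icc a b ∩ B) :=
          measure_mono (inter_subset_inter_left _ hsub)
      _ ≤ 2 * arcMeasure a b G B := Helper60.LM.hDOM _ _ _ _ harc B hB
      _ = ((2 : ℝ≥0∞) • arcMeasure a b G) B := by rw [Measure.smul_apply, smul_eq_mul]
  · obtain ⟨U, hU, u₁, v₁, u₂, v₂, c₁, c₂, φ₁, φ₂, hS1, hS2, hc1, hc2, hsub⟩ := hflat
    obtain ⟨ν₁, hν1, hB1⟩ := side_LOC hSIDM hMBA hTAU hCAPT h1 h2 h3 ⟨0, h0⟩ hp hG hS1 hy hc1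
    obtain ⟨ν₂, hν2, hB2⟩ := side_LOC hSIDM hMBA hTAU hCAPT h1 h2 h3 ⟨0, h0⟩ hp hG hS2 hy hc2
    obtain ⟨mb1, mb2, mb3, mb4⟩ := hMBA p hp
    refine ⟨U, hU, ν₁ + ν₂, mb2 _ _ hν1 hν2, ?_⟩
    intro B hB
    have hsub2 : frontier Ω ∩ U ∩ B ⊆ {y} ∪ ((curve y u₁ v₁ φ₁ '' Ioo 0 c₁ ∩ B) ∪
        (curve y u₂ v₂ φ₂ '' Ioo 0 c₂ ∩ B)) := by
      rintro x ⟨hx, hxB⟩
      rcases hsub hx with h | h | h
      · exact Or.inl h
      · exact Or.inr (Or.inl ⟨h, hxB⟩)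
      · exact Or.inr (Or.inr ⟨h, hxB⟩)
    have hy0 : (μH[1] : Measure Pl) {y} = 0 := by
      have := Measure.nullSingletonClass_hausdorff Pl (d := 1) one_pos
      exact measure_singleton y
    calc (μH[1] : Measure Pl) (frontier Ω ∩ U ∩ B)
        ≤ (μH[1] : Measure Pl) ({y} ∪ ((curve y u₁ v₁ φ₁ '' Ioo 0 c₁ ∩ B) ∪
            (curve y u₂ v₂ φ₂ '' Ioo 0 c₂ ∩ B))) := measure_mono hsub2
      _ ≤ (μH[1] : Measure Pl) {y} + ((μH[1] : Measure Pl) (curve y u₁ v₁ φ₁ '' Ioo 0 c₁ ∩ B) +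
            (μH[1] : Measure Pl) (curve y u₂ v₂ φ₂ '' Ioo 0 c₂ ∩ B)) :=
          (measure_union_le _ _).trans (add_le_add_right (measure_union_le _ _) _)
      _ ≤ 0 + (ν₁ B + ν₂ B) := by
          rw [hy0]
          exact add_le_add_right (add_le_add (hB1 B hB) (hB2 B hB)) _
      _ = (ν₁ + ν₂) B := by rw [zero_add, Measure.add_apply]

end Pool.Agent.Helper39.LM2
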