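import Pool.Agent.Helper68.LM2.St

/-!
# Project LM2, module SB: Burkholder inequality for dyadic martingales, `p > 2`, upper bound
-/

set_option autoImplicit false

open MeasureTheory Set Filter Topology
open scoped ENNReal RealInnerProductSpace

namespace Pool.Agent.Helper39.LM2

open Pool.Agent.Helper68.LM2 Pool.Agent.Helper68.LM

/-! ## bounded functions with bounded support -/

theorem B1_comp {h : ℝ → ℝ} (hh : B1 h) {φ : ℝ → ℝ} (hφ : Continuous φ) (h0 : φ 0 = 0) :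
    B1 (fun x => φ (h x)) := by
  obtain ⟨hm, K, hK, hs⟩ := hh
  obtain ⟨C, hC⟩ := (isCompact_Icc (a := -K) (b := K)).exists_bound_of_continuousOn
    (f := φ) hφ.continuousOn
  refine ⟨hφ.measurable.comp hm, max C K, fun x => ?_, fun x hx => ?_⟩
  · have h1 := hK x
    rw [abs_le] at h1
    have h2 := hC (h x) ⟨h1.1, h1.2⟩
    rw [Real.norm_eq_abs] at h2
    exact h2.trans (le_max_left _ _)
  · show φ (h x) = 0
    rw [hs x (lt_of_le_of_lt (le_max_right _ _) hx), h0]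

theorem B1_mul {h w : ℝ → ℝ} (hh : B1 h) (hw : B1 w) : B1 (fun x => h x * w x) := by
  obtain ⟨hm, K, hK, hs⟩ := hh
  obtain ⟨wm, L, hL, ws⟩ := hw
  have hK0 : 0 ≤ K := (abs_nonneg _).trans (hK 0)
  refine ⟨hm.mul wm, max (K * L) K, fun x => ?_, fun x hx => ?_⟩
  · rw [abs_mul]
    exact (mul_le_mul (hK x) (hL x) (abs_nonneg _) hK0).trans (le_max_left _ _)
  · show h x * w x = 0
    rw [hs x (lt_of_le_of_lt (le_max_right _ _) hx), zero_mul]

theorem B1_add {h w : ℝ → ℝ} (hh : B1 h) (hw : B1 w) : B1 (fun x => h x + w x) := by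
  obtain ⟨hm, K, hK, hs⟩ := hh
  obtain ⟨wm, L, hL, ws⟩ := hw
  have hK0 : 0 ≤ K := (abs_nonneg _).trans (hK 0)
  have hL0 : 0 ≤ L := (abs_nonneg _).trans (hL 0)
  refine ⟨hm.add wm, K + L, fun x => ?_, fun x hx => ?_⟩
  · exact (abs_add_le _ _).trans (add_le_add (hK x) (hL x))
  · show h x + w x = 0
    rw [hs x (by linarith), ws x (by linarith), add_zero]

theorem B1_zero : B1 (fun _ => (0:ℝ)) :=
  ⟨measurable_const, 0, fun _ => by simp, fun _ _ => rfl⟩

theorem B1_sum {d : ℕ → ℝ → ℝ} (hd : ∀ j, B1 (d j)) (J : ℕ) :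
    B1 (fun x => ∑ j ∈ Finset.range J, d j x) := by
  induction J with
  | zero => simpa using B1_zero
  | succ J ih =>
    simp only [Finset.sum_range_succ]
    exact B1_add ih (hd J)

theorem B1_integrable {h : ℝ → ℝ} (hh : B1 h) : Integrable h := by
  obtain ⟨hm, K, hK, hs⟩ := hh
  have hK0 : 0 ≤ K := (abs_nonneg _).trans (hK 0)
  have h1 : IntegrableOn h (Icc (-K) K) := by
    refine Measure.integrableOn_of_bounded (M := K) ?_ hm.aestronglyMeasurable ?_
    · exact measure_Icc_lt_top.ne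
    · exact Filter.Eventually.of_forall (fun x => by rw [Real.norm_eq_abs]; exact hK x)
  refine (integrableOn_iff_integrable_of_support_subset ?_).1 h1
  intro x hx
  rw [Function.mem_support] at hx
  by_contra hcon
  apply hx
  apply hs
  by_contra h2
  push Not at h2
  rw [abs_le] at h2
  exact hcon ⟨h2.1, h2.2⟩

/-! ## the maximal function -/

theorem enorm_E1_le (hEA : StEA) (n : ℤ) (h : ℝ → ℝ) (b : ℝ) :
    ‖E1 n h b‖ₑ ≤ Mx (fun y => ‖h y‖ₑ) b := by
  have hcell := (hEA.2.1 n b).2.2.2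
  have hr : (0:ℝ) < (2:ℝ) ^ n := by positivity
  have htr : ∫⁻ s in Icc (-((2 : ℝ) ^ n)) ((2 : ℝ) ^ n), ‖h (b + s)‖ₑ =
      ∫⁻ y in Icc (b - (2 : ℝ) ^ n) (b + (2 : ℝ) ^ n), ‖h y‖ₑ := by
    rw [← lintegral_indicator measurableSet_Icc, ← lintegral_indicator measurableSet_Icc,
      ← lintegral_add_left_eq_self
        ((Icc (b - (2 : ℝ) ^ n) (b + (2 : ℝ) ^ n)).indicator (fun y => ‖h y‖ₑ)) b]
    congr 1
    funext s
    by_cases hs : s ∈ Icc (-((2 : ℝ) ^ n)) ((2 : ℝ) ^ n)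
    · rw [indicator_of_mem hs, indicator_of_mem]
      exact ⟨by linarith [hs.1], by linarith [hs.2]⟩
    · rw [indicator_of_notMem hs, indicator_of_notMem]
      rintro ⟨h1, h2⟩
      exact hs ⟨by linarith, by linarith⟩
  calc ‖E1 n h b‖ₑ ≤ ENNReal.ofReal ((2:ℝ) ^ (-n)) * ∫⁻ y in cell n b, ‖h y‖ₑ := by
        unfold E1
        rw [enorm_mul]
        have h1 : ‖((2:ℝ) ^ n)⁻¹‖ₑ = ENNReal.ofReal ((2:ℝ) ^ (-n)) := by
          rw [← zpow_neg, Real.enorm_of_nonneg (by positivity)]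
        rw [h1]
        exact mul_le_mul_right (enorm_integral_le_lintegral_enorm _) _
    _ ≤ ENNReal.ofReal ((2:ℝ) ^ (-n)) *
        ∫⁻ s in Icc (-((2 : ℝ) ^ n)) ((2 : ℝ) ^ n), ‖h (b + s)‖ₑ := by
        rw [htr]
        exact mul_le_mul_right (lintegral_mono_set hcell) _
    _ ≤ Mx (fun y => ‖h y‖ₑ) b :=
        le_iSup (fun i : ℤ => ENNReal.ofReal ((2 : ℝ) ^ (-i)) *
          ∫⁻ s in Icc (-((2 : ℝ) ^ i)) ((2 : ℝ) ^ i), ‖h (b + s)‖ₑ) n

/-! ## inequalities in `[0,∞]` -/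

theorem sum_rpow_le (s : Finset ℕ) (x : ℕ → ℝ≥0∞) {r : ℝ} (hr : 1 ≤ r) :
    ∑ j ∈ s, x j ^ r ≤ (∑ j ∈ s, x j) ^ r := by
  classical
  induction s using Finset.induction_on with
  | empty => simp
  | insert a s ha ih =>
    rw [Finset.sum_insert ha, Finset.sum_insert ha]
    exact (add_le_add_right ih _).trans (ENNReal.add_rpow_le_rpow_add _ _ hr)

/-- Young's inequality -/
theorem young_SB {p : ℝ} (hp : 2 < p) {κ : ℝ≥0∞} (hκ0 : κ ≠ 0) (hκ : κ ≠ ∞) (A S : ℝ≥0∞) :
    A ^ (p - 2) * S ≤ κ * A ^ p + (κ⁻¹) ^ ((p - 2) / 2) * S ^ (p / 2) := by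
  have e1 : A ^ p = A ^ (p - 2) * A ^ (2:ℝ) := by
    rw [← ENNReal.rpow_add_of_nonneg _ _ (by linarith) (by norm_num)]
    congr 1
    ring
  by_cases h : S ≤ κ * A ^ (2:ℝ)
  · calc A ^ (p - 2) * S ≤ A ^ (p - 2) * (κ * A ^ (2:ℝ)) := mul_le_mul_right h _
      _ = κ * A ^ p := by rw [e1]; ring
      _ ≤ _ := le_self_add
  · push Not at h
    have h1 : A ^ (2:ℝ) ≤ κ⁻¹ * S := by
      calc A ^ (2:ℝ) = κ⁻¹ * (κ * A ^ (2:ℝ)) := by
            rw [← mul_assoc, ENNReal.inv_mul_cancel hκ0 hκ, one_mul]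
        _ ≤ κ⁻¹ * S := mul_le_mul_right h.le _
    have h2 : A ^ (p - 2) ≤ (κ⁻¹ * S) ^ ((p - 2) / 2) := by
      calc A ^ (p - 2) = (A ^ (2:ℝ)) ^ ((p - 2) / 2) := by
            rw [← ENNReal.rpow_mul]
            congr 1
            ring
        _ ≤ (κ⁻¹ * S) ^ ((p - 2) / 2) := ENNReal.rpow_le_rpow h1 (by linarith)
    calc A ^ (p - 2) * S ≤ (κ⁻¹ * S) ^ ((p - 2) / 2) * S := mul_le_mul_left h2 _
      _ = (κ⁻¹) ^ ((p - 2) / 2) * (S ^ ((p - 2) / 2) * S ^ (1:ℝ)) := by
          rw [ENNReal.mul_rpow_of_nonneg _ _ (by linarith), ENNReal.rpow_one]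
          ring
      _ = (κ⁻¹) ^ ((p - 2) / 2) * S ^ (p / 2) := by
          rw [← ENNReal.rpow_add_of_nonneg _ _ (by linarith) (by norm_num)]
          congr 2
          ring
      _ ≤ _ := le_add_self

/-! ## the martingale -/

theorem hSB (hEA : StEA) (hTAY : StTAY) (hHLA : StHLA) : StSB := by
  intro p hp
  obtain ⟨CT, hCT, hT⟩ := hTAY p hp.le
  obtain ⟨CH, hCH, hH⟩ := hHLA p (by linarith)
  have hHL := hH.1
  set ε : ℝ := 1 / (2 * CT * CH) with hε
  have hε0 : 0 < ε := by positivity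
  set κ : ℝ≥0∞ := ENNReal.ofReal ε with hκ
  have hκ0 : κ ≠ 0 := (ENNReal.ofReal_pos.2 hε0).ne'
  have hκt : κ ≠ ∞ := ENNReal.ofReal_ne_top
  set D : ℝ := (ε⁻¹) ^ ((p - 2) / 2) + 1 with hD
  have hD0 : 0 < D := by positivity
  refine ⟨2 * CT * D, by positivity, ?_⟩
  intro m J d hd hd1 hd2
  obtain ⟨ea1, ea2, ea3, ea4, ea5, ea6, ea7, ea8, ea9, ea10, ea11, ea12, ea13, ea14⟩ := hEA
  have hEA' : StEA := ⟨ea1, ea2, ea3, ea4, ea5, ea6, ea7, ea8, ea9, ea10, ea11, ea12, ea13, ea14⟩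
  set M : ℕ → ℝ → ℝ := fun j b => ∑ i ∈ Finset.range j, d i b with hM
  have hMB : ∀ j, B1 (M j) := fun j => B1_sum hd j
  have hMs : ∀ j b, M (j + 1) b = M j b + d j b := fun j b => by
    simp only [hM, Finset.sum_range_succ]
  -- constancy on the cells
  have hconst : ∀ (j : ℕ) (x : ℝ), ∀ y ∈ cell (m - (j : ℤ) + 1) x, M j y = M j x := by
    intro j x y hy
    simp only [hM]
    apply Finset.sum_congr rfl
    intro i hi
    rw [Finset.mem_range] at hi
    rw [← hd1 i y, ← hd1 i x]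
    apply ea5
    exact ea3 _ _ x (by omega) hy
  -- projections
  have hproj0 : ∀ (j K : ℕ) (b : ℝ), j ≤ K → E1 (m - (j : ℤ) + 1) (d K) b = 0 := by
    intro j K b hjK
    have h1 := (ea11 (m - (K : ℤ) + 1) (m - (j : ℤ) + 1) (d K) b (hd K) (by omega)).1
    rw [← h1]
    have h2 : E1 (m - (K : ℤ) + 1) (d K) = fun _ => 0 := funext (hd2 K)
    rw [h2]
    unfold E1
    simp
  have hproj : ∀ (j K : ℕ) (b : ℝ), j ≤ K → E1 (m - (j : ℤ) + 1) (M K) b = M j b := by
    intro j K b hjK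
    induction K, hjK using Nat.le_induction with
    | base => exact (ea13 _ (M j) (M j) b (hMB j) (hMB j) (hconst j)).1
    | succ K hK ih =>
      have h1 : M (K + 1) = fun y => M K y + d K y := funext (hMs K)
      rw [h1, ea6 _ _ _ _ (hMB K) (hd K), ih, hproj0 j K b hK, add_zero]
  -- the cross term
  have hφc : Continuous (fun x : ℝ => |x| ^ (p - 2) * x) :=
    (continuous_abs.rpow_const (fun x => Or.inr (by linarith))).mul continuous_id
  have hpc : Continuous (fun x : ℝ => |x| ^ p) :=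
    continuous_abs.rpow_const (fun x => Or.inr (by linarith))
  have hp2c : Continuous (fun x : ℝ => |x| ^ (p - 2)) :=
    continuous_abs.rpow_const (fun x => Or.inr (by linarith))
  have hwB : ∀ j, B1 (fun y => |M j y| ^ (p - 2) * M j y) := fun j =>
    B1_comp (hMB j) hφc (by simp)
  have hcross : ∀ j, ∫ y, (|M j y| ^ (p - 2) * M j y) * d j y = 0 := by
    intro j
    have hw : ∀ y, E1 (m - (j : ℤ) + 1) (fun y => |M j y| ^ (p - 2) * M j y) y =
        |M j y| ^ (p - 2) * M j y := by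
      intro y
      refine (ea13 _ (M j) (fun y => |M j y| ^ (p - 2) * M j y) y (hMB j) (hwB j) ?_).1
      intro x z hz
      show |M j z| ^ (p - 2) * M j z = |M j x| ^ (p - 2) * M j x
      rw [hconst j x z hz]
    have h1 := ea12 (m - (j : ℤ) + 1) (fun y => |M j y| ^ (p - 2) * M j y) (d j) (hwB j) (hd j)
    have h2 : ∫ y, (|M j y| ^ (p - 2) * M j y) * d j y =
        ∫ y, E1 (m - (j : ℤ) + 1) (fun y => |M j y| ^ (p - 2) * M j y) y * d j y := by
      congr 1
      funext y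
      rw [hw y]
    rw [h2, h1]
    have h3 : ∀ y, E1 (m - (j : ℤ) + 1) (d j) y = 0 := hd2 j
    simp [h3]
  -- integrability
  have iM : ∀ j, Integrable (fun y => |M j y| ^ p) := fun j =>
    B1_integrable (B1_comp (hMB j) hpc (by
      rw [abs_zero]
      exact Real.zero_rpow (by linarith)))
  have idp : ∀ j, Integrable (fun y => |d j y| ^ p) := fun j =>
    B1_integrable (B1_comp (hd j) hpc (by
      rw [abs_zero]
      exact Real.zero_rpow (by linarith)))
  have iw : ∀ j, Integrable (fun y => (|M j y| ^ (p - 2) * M j y) * d j y) := fun j =>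
    B1_integrable (B1_mul (hwB j) (hd j))
  have iq : ∀ j, Integrable (fun y => |M j y| ^ (p - 2) * d j y ^ 2) := fun j => by
    have h1 : B1 (fun y => |M j y| ^ (p - 2)) := by
      refine B1_comp (hMB j) hp2c ?_
      rw [abs_zero]
      exact Real.zero_rpow (by linarith)
    have h2 : B1 (fun y => d j y ^ 2) := B1_comp (hd j) (φ := fun x => x ^ 2) (by fun_prop) (by simp)
    exact B1_integrable (B1_mul h1 h2)
  have i3 : ∀ j, Integrable (fun y => |M j y| ^ (p - 2) * d j y ^ 2 + |d j y| ^ p) :=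
    fun j => (iq j).add (idp j)
  have i4 : ∀ K, Integrable (fun y => ∑ j ∈ Finset.range K,
      (|M j y| ^ (p - 2) * d j y ^ 2 + |d j y| ^ p)) :=
    fun K => integrable_finsetSum _ (fun j _ => i3 j)
  have i5 : ∀ j, Integrable (fun y => |M j y| ^ p + p * ((|M j y| ^ (p - 2) * M j y) * d j y)) :=
    fun j => (iM j).add ((iw j).const_mul p)
  -- one step
  have hstep : ∀ j, ∫ y, |M (j + 1) y| ^ p ≤ (∫ y, |M j y| ^ p) +
      CT * ∫ y, (|M j y| ^ (p - 2) * d j y ^ 2 + |d j y| ^ p) := by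
    intro j
    have h1 : ∫ y, |M (j + 1) y| ^ p ≤ ∫ y, ((|M j y| ^ p +
        p * ((|M j y| ^ (p - 2) * M j y) * d j y)) +
        CT * (|M j y| ^ (p - 2) * d j y ^ 2 + |d j y| ^ p)) := by
      apply integral_mono (iM (j + 1)) ((i5 j).add ((i3 j).const_mul CT))
      intro y
      show |M (j + 1) y| ^ p ≤ (|M j y| ^ p + p * ((|M j y| ^ (p - 2) * M j y) * d j y)) +
        CT * (|M j y| ^ (p - 2) * d j y ^ 2 + |d j y| ^ p)
      rw [hMs j y]
      exact hT (M j y) (d j y)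
    have h2 : ∫ y, ((|M j y| ^ p + p * ((|M j y| ^ (p - 2) * M j y) * d j y)) +
        CT * (|M j y| ^ (p - 2) * d j y ^ 2 + |d j y| ^ p)) =
        ((∫ y, |M j y| ^ p) + p * ∫ y, (|M j y| ^ (p - 2) * M j y) * d j y) +
        CT * ∫ y, (|M j y| ^ (p - 2) * d j y ^ 2 + |d j y| ^ p) := by
      rw [integral_add (i5 j) ((i3 j).const_mul CT),
        integral_add (iM j) ((iw j).const_mul p), integral_const_mul, integral_const_mul]
    rw [h2, hcross j, mul_zero, add_zero] at h1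
    exact h1
  have hsum : ∀ K, ∫ y, |M K y| ^ p ≤
      CT * ∫ y, ∑ j ∈ Finset.range K, (|M j y| ^ (p - 2) * d j y ^ 2 + |d j y| ^ p) := by
    intro K
    induction K with
    | zero =>
      have h1 : ∀ y, M 0 y = 0 := fun y => by simp [hM]
      have h2 : (0:ℝ) ^ p = 0 := Real.zero_rpow (by linarith)
      simp [h1, h2]
    | succ K ih =>
      have h1 : ∫ y, ∑ j ∈ Finset.range (K + 1), (|M j y| ^ (p - 2) * d j y ^ 2 + |d j y| ^ p) =
          (∫ y, ∑ j ∈ Finset.range K, (|M j y| ^ (p - 2) * d j y ^ 2 + |d j y| ^ p)) +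
          ∫ y, (|M K y| ^ (p - 2) * d K y ^ 2 + |d K y| ^ p) := by
        rw [← integral_add (i4 K) (i3 K)]
        congr 1
        funext y
        rw [Finset.sum_range_succ]
      rw [h1, mul_add]
      exact (hstep K).trans (by linarith)
  -- transfer to `[0,∞]`
  set X : ℝ≥0∞ := ∫⁻ b, ‖M J b‖ₑ ^ p with hX
  have henn : ∀ (x : ℝ) (r : ℝ), 0 ≤ r → ENNReal.ofReal (|x| ^ r) = ‖x‖ₑ ^ r := by
    intro x r hr
    rw [← ENNReal.ofReal_rpow_of_nonneg (abs_nonneg x) hr, ← Real.enorm_abs,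
      Real.enorm_of_nonneg (abs_nonneg x)]
  have hXe : X = ENNReal.ofReal (∫ y, |M J y| ^ p) := by
    rw [ofReal_integral_eq_lintegral_ofReal (iM J) (Filter.Eventually.of_forall (fun y => by positivity))]
    rw [hX]
    congr 1
    funext y
    rw [henn _ _ (by linarith)]
  have hXt : X ≠ ∞ := by
    rw [hXe]
    exact ENNReal.ofReal_ne_top
  set A : ℝ → ℝ≥0∞ := Mx (fun y => ‖M J y‖ₑ) with hA
  set S2 : ℝ → ℝ≥0∞ := fun b => ∑ j ∈ Finset.range J, ‖d j b‖ₑ ^ 2 with hS2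
  have hmeas : Measurable (fun y => ‖M J y‖ₑ) := (hMB J).1.enorm
  obtain ⟨hAm, hAp⟩ := hHL _ hmeas
  have hX1 : X ≤ ENNReal.ofReal CT * ∫⁻ b, (A b ^ (p - 2) * S2 b + S2 b ^ (p / 2)) := by
    have h1 : X ≤ ENNReal.ofReal (CT * ∫ y, ∑ j ∈ Finset.range J,
        (|M j y| ^ (p - 2) * d j y ^ 2 + |d j y| ^ p)) := by
      rw [hXe]
      exact ENNReal.ofReal_le_ofReal (hsum J)
    rw [ENNReal.ofReal_mul hCT.le, ofReal_integral_eq_lintegral_ofReal (i4 J)
      (Filter.Eventually.of_forall (fun y => Finset.sum_nonneg (fun j _ => by positivity)))] at h1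
    refine h1.trans (mul_le_mul_right (lintegral_mono (fun b => ?_)) _)
    show ENNReal.ofReal (∑ j ∈ Finset.range J, (|M j b| ^ (p - 2) * d j b ^ 2 + |d j b| ^ p)) ≤ _
    rw [ENNReal.ofReal_sum_of_nonneg (fun j _ => by positivity)]
    calc ∑ j ∈ Finset.range J, ENNReal.ofReal (|M j b| ^ (p - 2) * d j b ^ 2 + |d j b| ^ p)
        ≤ ∑ j ∈ Finset.range J, (A b ^ (p - 2) * ‖d j b‖ₑ ^ 2 + (‖d j b‖ₑ ^ 2) ^ (p / 2)) := by
          apply Finset.sum_le_sum
          intro j hj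
          rw [Finset.mem_range] at hj
          have h2 : ‖M j b‖ₑ ≤ A b := by
            have := enorm_E1_le hEA' (m - (j : ℤ) + 1) (M J) b
            rwa [hproj j J b hj.le] at this
          rw [ENNReal.ofReal_add (by positivity) (by positivity),
            ENNReal.ofReal_mul (by positivity), henn _ _ (by linarith), henn _ _ (by linarith)]
          have h3 : ENNReal.ofReal (d j b ^ 2) = ‖d j b‖ₑ ^ 2 := by
            rw [← sq_abs, ENNReal.ofReal_pow (abs_nonneg _), ← Real.enorm_abs,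
              Real.enorm_of_nonneg (abs_nonneg _)]
          have h4 : ‖d j b‖ₑ ^ p = (‖d j b‖ₑ ^ 2) ^ (p / 2) := by
            rw [← ENNReal.rpow_natCast, ← ENNReal.rpow_mul]
            congr 1
            push_cast
            ring
          rw [h3, h4]
          exact add_le_add_left (mul_le_mul_left (ENNReal.rpow_le_rpow h2 (by linarith)) _) _
      _ = A b ^ (p - 2) * S2 b + ∑ j ∈ Finset.range J, (‖d j b‖ₑ ^ 2) ^ (p / 2) := by
          rw [Finset.sum_add_distrib, Finset.mul_sum]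
      _ ≤ A b ^ (p - 2) * S2 b + S2 b ^ (p / 2) :=
          add_le_add_right (sum_rpow_le _ _ (by linarith)) _
  have hX2 : X ≤ ENNReal.ofReal CT * (κ * (ENNReal.ofReal CH * X) +
      ENNReal.ofReal D * ∫⁻ b, S2 b ^ (p / 2)) := by
    refine hX1.trans (mul_le_mul_right ?_ _)
    have hDe : ENNReal.ofReal D = (κ⁻¹) ^ ((p - 2) / 2) + 1 := by
      rw [hD, ENNReal.ofReal_add (by positivity) zero_le_one, ENNReal.ofReal_one,
        ← ENNReal.ofReal_rpow_of_nonneg (by positivity) (by linarith),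
        ENNReal.ofReal_inv_of_pos hε0]
    calc ∫⁻ b, (A b ^ (p - 2) * S2 b + S2 b ^ (p / 2))
        ≤ ∫⁻ b, (κ * A b ^ p + ENNReal.ofReal D * S2 b ^ (p / 2)) := by
          apply lintegral_mono
          intro b
          show A b ^ (p - 2) * S2 b + S2 b ^ (p / 2) ≤ _
          calc A b ^ (p - 2) * S2 b + S2 b ^ (p / 2)
              ≤ (κ * A b ^ p + (κ⁻¹) ^ ((p - 2) / 2) * S2 b ^ (p / 2)) + S2 b ^ (p / 2) :=
                add_le_add_left (young_SB hp hκ0 hκt _ _) _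
            _ = κ * A b ^ p + ENNReal.ofReal D * S2 b ^ (p / 2) := by
                rw [hDe, add_mul, one_mul, add_assoc]
      _ = κ * (∫⁻ b, A b ^ p) + ENNReal.ofReal D * ∫⁻ b, S2 b ^ (p / 2) := by
          rw [lintegral_add_left ((hAm.pow_const p).const_mul κ), lintegral_const_mul' _ _ hκt,
            lintegral_const_mul' _ _ ENNReal.ofReal_ne_top]
      _ ≤ κ * (ENNReal.ofReal CH * X) + ENNReal.ofReal D * ∫⁻ b, S2 b ^ (p / 2) :=
          add_le_add_left (mul_le_mul_right hAp _) _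
  -- absorb
  have hhalf : ENNReal.ofReal CT * (κ * (ENNReal.ofReal CH * X)) = X / 2 := by
    have h1 : CT * ε * CH = 1 / 2 := by
      rw [hε]
      field_simp
    calc ENNReal.ofReal CT * (κ * (ENNReal.ofReal CH * X))
        = ENNReal.ofReal (CT * ε * CH) * X := by
          rw [ENNReal.ofReal_mul (by positivity), ENNReal.ofReal_mul hCT.le]
          ring
      _ = X / 2 := by
          rw [h1, ENNReal.div_eq_inv_mul]
          congr 1
          rw [one_div, ENNReal.ofReal_inv_of_pos (by norm_num)]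
          norm_num
  rw [mul_add, hhalf] at hX2
  have hX3 : X / 2 ≤ ENNReal.ofReal CT * (ENNReal.ofReal D * ∫⁻ b, S2 b ^ (p / 2)) := by
    have h1 : X / 2 + X / 2 ≤ X / 2 +
        ENNReal.ofReal CT * (ENNReal.ofReal D * ∫⁻ b, S2 b ^ (p / 2)) := by
      rw [ENNReal.add_halves]
      exact hX2
    exact (ENNReal.add_le_add_iff_left (ENNReal.div_ne_top hXt (by norm_num))).1 h1
  calc X = 2 * (X / 2) := by
        rw [ENNReal.mul_div_cancel (by norm_num) (by norm_num)]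
    _ ≤ 2 * (ENNReal.ofReal CT * (ENNReal.ofReal D * ∫⁻ b, S2 b ^ (p / 2))) :=
        mul_le_mul_right hX3 _
    _ = ENNReal.ofReal (2 * CT * D) * ∫⁻ b, S2 b ^ (p / 2) := by
        rw [ENNReal.ofReal_mul (by positivity), ENNReal.ofReal_mul (by positivity)]
        have : ENNReal.ofReal 2 = 2 := by norm_num
        rw [this]
        ring

end Pool.Agent.Helper39.LM2
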